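import Pool.Agent.Helper38.FRX.Goals

/-!
# FRX-SMLC: the sum over the local structures under the light-cut condition
-/

set_option autoImplicit false

namespace Pool.Agent.Helper13.FRX

open Finset Pool.Agent.Helper55.FR Pool.Agent.Helper38.FRX

theorem flip_flip' (a : Lab) : flip (flip a) = a := by
  cases a <;> rfl

theorem flip_eq_O (a : Lab) : flip a = Lab.O ↔ a = Lab.O := by
  cases a <;> simp [Pool.Agent.Helper55.FR.flip]

theorem smlc (havg : Pool.Agent.Helper38.FRX.AvgStmt) (hxr : XrStmt) : SmlcStmt := by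
  classical
  intro V _ _ n m h lam g L θ ε hcub hh0 hh1 hhg hL hlg hlam hθ0 hθ1 hε hcut hnum x
  obtain ⟨s, hs⟩ : ∃ s, s = Real.sqrt θ := ⟨_, rfl⟩
  have hs0 : 0 ≤ s := by
    rw [hs]
    exact Real.sqrt_nonneg _
  have hs1 : s < 1 := by
    rw [hs, show (1 : ℝ) = Real.sqrt 1 by rw [Real.sqrt_one]]
    exact Real.sqrt_lt_sqrt hθ0.le hθ1
  have hLr : (0 : ℝ) < L := by exact_mod_cast hL
  have hhg0 : 0 < h * g := by linarith
  have hlam0 : 0 < lam := by linarith
  -- the part with `b` bad vertices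
  have hpart : ∀ b : ℕ, ∑ f ∈ ((univ : Finset (V → Lab)).filter
      (fun f => LclC n m h g f ∧ x ∈ Bad m f)).filter (fun f => (Bad m f).card = b),
        θ ^ (Bad m f).card ≤ ε * ((1 - s) * s ^ b) := by
    intro b
    obtain ⟨A, hA⟩ : ∃ A, A = ((univ : Finset (V → Lab)).filter
      (fun f => LclC n m h g f ∧ x ∈ Bad m f)).filter (fun f => (Bad m f).card = b) := ⟨_, rfl⟩
    rw [← hA]
    have hR0 : 0 ≤ ε * ((1 - s) * s ^ b) :=
      mul_nonneg hε (mul_nonneg (by linarith) (pow_nonneg hs0 _))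
    have hmem : ∀ f ∈ A, LclC n m h g f ∧ x ∈ Bad m f ∧ (Bad m f).card = b := by
      intro f hf
      rw [hA, mem_filter, mem_filter] at hf
      exact ⟨hf.1.2.1, hf.1.2.2, hf.2⟩
    rcases A.eq_empty_or_nonempty with hAe | ⟨f0, hf0⟩
    · rw [hAe, sum_empty]
      exact hR0
    have hb : h * g ≤ 4 * (b : ℝ) := by
      have h1 := (hmem f0 hf0).1.1.cB
      rw [(hmem f0 hf0).2.2] at h1
      exact h1
    have hlb : lam ≤ 9 * (b : ℝ) := by linarith
    have hb0 : (0 : ℝ) ≤ b := Nat.cast_nonneg b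
    obtain ⟨u, hu⟩ : ∃ u : ℕ, u = ⌊8 * (b : ℝ) / (h * g)⌋₊ := ⟨_, rfl⟩
    obtain ⟨w, hw⟩ : ∃ w : ℕ, w = ⌈28 * (b : ℝ) / lam⌉₊ := ⟨_, rfl⟩
    obtain ⟨d, hd⟩ : ∃ d : ℕ, d = ⌊6 * (b : ℝ) / h⌋₊ := ⟨_, rfl⟩
    obtain ⟨j, hj⟩ : ∃ j : ℕ, j = ⌈(d : ℝ) / L⌉₊ := ⟨_, rfl⟩
    have hu1 : (u : ℝ) * (h * g) ≤ 8 * b := by
      have h1 : (u : ℝ) ≤ 8 * b / (h * g) := by
        rw [hu]
        exact Nat.floor_le (by positivity)
      rwa [le_div_iff₀ hhg0] at h1
    have hw1 : 28 * (b : ℝ) ≤ lam * w := by
      have h1 := Nat.le_ceil (28 * (b : ℝ) / lam)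
      rw [← hw, div_le_iff₀ hlam0] at h1
      linarith
    have hw2 : lam * (w : ℝ) ≤ 28 * b + lam := by
      have h1 := (Nat.ceil_lt_add_one (by positivity : 0 ≤ 28 * (b : ℝ) / lam)).le
      rw [← hw] at h1
      have h2 := mul_le_mul_of_nonneg_left h1 hlam0.le
      rw [mul_add, mul_div_cancel₀ _ hlam0.ne', mul_one] at h2
      exact h2
    have hd1 : h * (d : ℝ) ≤ 6 * b := by
      have h1 : (d : ℝ) ≤ 6 * b / h := by
        rw [hd]
        exact Nat.floor_le (by positivity)
      rw [le_div_iff₀ hh0] at h1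
      linarith
    have hj1 : (d : ℝ) ≤ L * j := by
      have h1 := Nat.le_ceil ((d : ℝ) / L)
      rw [← hj, div_le_iff₀ hLr] at h1
      linarith
    have hj2 : L * (j : ℝ) ≤ d + L := by
      have h1 := (Nat.ceil_lt_add_one (by positivity : 0 ≤ (d : ℝ) / L)).le
      rw [← hj] at h1
      have h2 := mul_le_mul_of_nonneg_left h1 hLr.le
      rw [mul_add, mul_div_cancel₀ _ hLr.ne', mul_one] at h2
      exact h2
    obtain ⟨Z, hZ⟩ : ∃ Z : Finset V, Z = {x, m x} := ⟨_, rfl⟩
    have hZc : Z.card ≤ 2 := by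
      rw [hZ]
      exact card_le_two
    have hAc := havg V n m L lam hcub hL hlam0 hcut (fun _ => Lab.O) Z A (fun f => Ws f)
      (fun f => VM m f) (j + 1 + (2 * u + w)) u (2 * u + w) d (7 * b) (by omega) (by
        push_cast
        have : lam * (2 * (u : ℝ) + w - 2 * u) = lam * w := by ring
        rw [this]
        linarith) (by
        have h1 : ((d : ℕ) : ℝ) ≤ ((L * j : ℕ) : ℝ) := by
          push_cast
          exact hj1
        have h2 : d ≤ L * j := by exact_mod_cast h1
        calc d + L * (1 + (2 * u + w)) ≤ L * j + L * (1 + (2 * u + w)) :=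
              Nat.add_le_add_right h2 _
          _ = L * (j + 1 + (2 * u + w)) := by ring) (by
      intro f hf
      obtain ⟨⟨hl, hVM⟩, hx, hbf⟩ := hmem f hf
      have hW : ∀ v, v ∈ Ws f ↔ f v ≠ Lab.O := fun v => by
        unfold Ws
        rw [mem_filter]
        exact ⟨fun h => h.2, fun h => ⟨mem_univ _, h⟩⟩
      have hVm : ∀ v, v ∈ VM m f ↔ f (m v) ≠ flip (f v) := fun v => by
        unfold VM
        rw [mem_filter]
        exact ⟨fun h => h.2, fun h => ⟨mem_univ _, h⟩⟩
      have hSpc : (Spc n f).card ≤ u := by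
        rw [hu]
        refine Nat.le_floor ?_
        have h1 := hl.cS
        rw [hbf] at h1
        rw [le_div_iff₀ hhg0]
        linarith
      have hWc : (Ws f).card ≤ d := by
        rw [hd]
        refine Nat.le_floor ?_
        have h1 := hl.cW
        rw [hbf] at h1
        rw [le_div_iff₀ hh0]
        linarith
      refine ⟨?_, ?_, hWc, hSpc, ?_, ?_, subset_rfl, ?_, ?_⟩
      · intro v hv
        rw [hW] at hv
        push Not at hv
        exact hv
      · intro S hS hSn hcl
        have h1 := hl.con S hS hSn hcl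
        unfold Bad at hx
        rw [mem_filter] at hx
        obtain ⟨_, _, _, hxb⟩ := hx
        by_cases hO : f x = Lab.O
        · refine ⟨m x, ?_, ?_⟩
          · rw [h1, hW]
            intro h2
            rcases hxb with h3 | h3
            · exact h3 (hO.trans h2.symm)
            · rw [hO] at h3
              cases h3
          · rw [hZ]
            simp
        · refine ⟨x, ?_, ?_⟩
          · rw [h1, hW]
            exact hO
          · rw [hZ]
            simp
      · exact (card_le_card (hxr V n f).1).trans hSpc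
      · intro v
        rw [hVm, hVm, hcub.mm, not_iff_not]
        constructor
        · intro h1
          rw [h1, flip_flip']
        · intro h1
          conv_rhs => rw [h1]
          rw [flip_flip']
      · intro v hv
        unfold Ym at hv
        rw [mem_filter, hW, hW] at hv
        rw [hVm]
        intro h1
        apply hv.2
        rw [h1, Ne, Ne, flip_eq_O]
      · rw [hbf] at hVM
        exact hVM)
    have hnum' := hnum b (j + 1 + (2 * u + w)) (2 * u + w) Z.card hlb (by
        push_cast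
        have h1 : 49 * lam * u ≤ 100 * (h * g) * u :=
          mul_le_mul_of_nonneg_right hlg (Nat.cast_nonneg u)
        nlinarith) (by
        push_cast
        have h1 := mul_le_mul_of_nonneg_left hj2 hh0.le
        nlinarith) (by
        have h1 : (Z.card : ℝ) ≤ 2 := by exact_mod_cast hZc
        nlinarith)
    calc ∑ f ∈ A, θ ^ (Bad m f).card = A.card * θ ^ b := by
          rw [sum_congr rfl fun f hf => by rw [(hmem f hf).2.2], sum_const, nsmul_eq_mul]
      _ ≤ (2 * ((864 * (L : ℝ)) ^ (j + 1 + (2 * u + w)) * (24 * (L : ℝ)) ^ (2 * u + w) *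
            (1 + 1 / (24 * (L : ℝ))) ^ Z.card)) * θ ^ b :=
          mul_le_mul_of_nonneg_right hAc (pow_nonneg hθ0.le _)
      _ ≤ ε * (1 - Real.sqrt θ) * Real.sqrt θ ^ b := hnum'
      _ = ε * ((1 - s) * s ^ b) := by rw [← hs]; ring
  have hmaps : ∀ f ∈ (univ : Finset (V → Lab)).filter
      (fun f => LclC n m h g f ∧ x ∈ Bad m f), (Bad m f).card ∈ range (Fintype.card V + 1) := by
    intro f _
    rw [mem_range]
    have := card_le_univ (Bad m f)
    omega
  rw [← sum_fiberwise_of_maps_to hmaps]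
  calc ∑ b ∈ range (Fintype.card V + 1), ∑ f ∈ ((univ : Finset (V → Lab)).filter
        (fun f => LclC n m h g f ∧ x ∈ Bad m f)).filter (fun f => (Bad m f).card = b),
          θ ^ (Bad m f).card
      ≤ ∑ b ∈ range (Fintype.card V + 1), ε * ((1 - s) * s ^ b) :=
        sum_le_sum fun b _ => hpart b
    _ = ε * (1 - s ^ (Fintype.card V + 1)) := by
        rw [← mul_sum, ← mul_sum, mul_neg_geom_sum]
    _ ≤ ε * 1 := by
        apply mul_le_mul_of_nonneg_left _ hε
        have := pow_nonneg hs0 (Fintype.card V + 1)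
        linarith
    _ = ε := mul_one _

end Pool.Agent.Helper13.FRX
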